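import Pool.Agent.Lib_helper46.DP.Double

/-!
# The double planes `y ^ 2 = D(t) (h(x) - t)`: a Galois criterion for the absence of Tate classes

Let `K` be a number field, let `D` and `h` be monic polynomials over the integers of `K`, and let the
degree of `h` be an odd prime `m`. Assume that `D(h(x))` is irreducible over `K` and that some element
of the Galois group of `D(h(x))` is a transposition. (This is true for a generic pair `(D, h)`; for the
transposition it is enough that the discriminant of `D(h(x))` has valuation `1` at one prime.)

The theorem: if `V_ℓ` are the Galois representations whose traces are the numbers of points of the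
double plane `y ^ 2 = D(t) (h(x) - t)` (minus `|F| ^ 2`), and if some eigenvalue of some element in
some `V_r(1)` is not a root of unity, then for *every* prime `ℓ` no open subgroup of the Galois group
acts trivially on a nonzero subquotient of `V_ℓ(1)`. The only hypothesis is on the Galois group of one
polynomial in one variable (as in the theorems of Zarhin on hyperelliptic jacobians); there is no
hypothesis on the images of the `ℓ`-adic representations, on inertia groups or on single numbers of
points.

More generally (`mn_cover` in `Lib_helper46/DP/Main.lean`) this holds for the cyclic covers `z ^ (p ^ a) = D(t) (h(x) - t)`,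
where `p ≠ m` is a prime and `K` contains the roots of unity of order `p ^ a`, and for the part of the
cohomology on which the covering group acts by a given character of order `p ^ a`.

The proof. Let `T(F)` be the traces, `n` the degree of `D`, `Δ` and `Ω` the sets of the roots of `D`
and of `D(h(x))`, and let `R` be the `p`-adic member of the family (`p = 2` for the double planes).

1. Modulo `|F| - 1` the number of the points of `D(t) (h(x) - t) ≠ 0` is `|Ω(F)| - |Δ(F)|`. By
   the congruences between character sums and numbers of points for extensions of degree divisible
   by `p ^ k`, for every `g` the number of the eigenvalues of `R(g)` that are congruent to `1` is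
   the difference of these numbers for the permutation representations on `Ω` and on `Δ`. It is `0`
   if `g` acts as a cycle of length `m` on each of the `n` blocks `h(x) = t` of `Ω`, and it is the
   dimension `n (m - 1)` of `R` if `g` fixes `Ω`.
2. Let `E ≠ 0` be a subquotient of some `V_ℓ(1)` that is stable under the Galois group and on which
   an open subgroup acts trivially. By density of Frobenius elements and 1, no `g` that acts as a
   cycle of length `m` on each block has the eigenvalue `1` on `E`, and the elements that fix `Ω` act
   on `E` with orders that are powers of `p`.
3. By the transposition the Galois group induces all permutations of `Ω` that preserve the blocks.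
   So there is a finite group `Γ` that acts on `E` and `Ω`, with a `p`-group as the kernel of the
   action on `Ω`. A Sylow `m`-subgroup `P` of the preimage of the group `(ℤ/m) ^ n` of the shifts of
   the blocks is isomorphic to this group, and by the argument of Frattini its normalizer permutes the
   pairs of a block and a nontrivial character of `ℤ/m` transitively. A common eigenvector of `P` in
   `E` has a character that is nontrivial on exactly one block, by 2. Hence all `n (m - 1)` characters
   of this form occur in `E`, and `E` has the dimension `n (m - 1)` of `V_ℓ`.
4. So `E = V_ℓ(1)` has a finite image, and then all eigenvalues of all elements in all members of the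
   family are roots of unity.
-/

set_option autoImplicit false

namespace Pool.Agent.Results.MP_97f789_ag.DoublePlanes

open NumberField Polynomial Pool.Agent.DoublePlane

theorem result {K : Type} [Field K] [NumberField K] [Algebra K (AlgebraicClosure ℚ)]
    {D h : (𝓞 K)[X]} (hD : D.Monic) (hh : h.Monic) (hm : h.natDegree.Prime) (hm2 : h.natDegree ≠ 2)
    (hirr : Irreducible ((D.comp h).map (algebraMap (𝓞 K) K)))
    (hA : HasTransposition (AlgebraicClosure ℚ) (D.comp h))
    {d : ℕ} (ρ : ∀ (ℓ : ℕ) [Fact ℓ.Prime],
      (AlgebraicClosure ℚ ≃ₐ[K] AlgebraicClosure ℚ) →* Matrix (Fin d) (Fin d) (PadicAlgCl ℓ))
    (hρ : ∀ (ℓ : ℕ) [Fact ℓ.Prime], CountsPoints D h (ρ ℓ))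
    (hB : ∃ (r : ℕ) (_ : Fact r.Prime), NotAllRootsOfUnity (ρ r))
    (ℓ : ℕ) [Fact ℓ.Prime] : NoTateClasses (ρ ℓ) :=
  DP.dc_main hD hh hm hm2 hirr hA ρ hρ hB ℓ

end Pool.Agent.Results.MP_97f789_ag.DoublePlanes
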